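import Pool.Agent.TH627.UT.Lower

/-!
# The lower bound for families of spaces of small weight (helper739)

The proof of `lower_core` is that of `Pool.Agent.TH627.UT.lower` (starting file), reorganised so
that the countability of a base of the target is not needed.
-/

set_option autoImplicit false

open Set Topology Filter Ordinal Order TopologicalSpace
open Pool.Agent.TH627.UT

universe u v

namespace Pool.Agent.Y739.UT

theorem lower_core {lam : Ordinal.{0}} (hl : IsSuccLimit lam) (n : ℕ) {b : ℕ → Ordinal.{0}}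
    (hbm : Monotone b) (hb : ∀ γ < lam, ∃ i, γ < b i) (𝔉 : Fam) (hE : ∀ i, EB (b i) (𝔉.Φ i))
    {Z : Type u} [TopologicalSpace Z] [T2Space Z] [NormalSpace Z]
    (hZ : Dle (lam + n) (univ : Set Z)) (w : Fin (n + 1) → C(Z, ℝ))
    (hw01 : ∀ q z, w q z ∈ Icc (0 : ℝ) 1) (j : ℕ) (dm : ℕ → ℕ → ℕ) (hdmj : ∀ m, m ≤ dm m j)
    (e : ∀ m : ℕ, (𝔉.sd (n + 1) (dm m)).X → Z)
    (hec : ∀ m, Continuous (e m)) (hei : ∀ m, Function.Injective (e m))
    (hq0 : ∀ m i (x : (𝔉.sd (n + 1) (dm m)).X),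
      (𝔉.sd (n + 1) (dm m)).π x i = 0 → w i (e m x) = 0)
    (hq1 : ∀ m i (x : (𝔉.sd (n + 1) (dm m)).X),
      (𝔉.sd (n + 1) (dm m)).π x i = 1 → w i (e m x) = 1) : False := by
  -- values at the vertices
  have _ : Fintype (V (n + 1) j) := (finite_V (n + 1) j).fintype
  have hneV : Nonempty (V (n + 1) j) := ⟨⟨_, zero_mem_V (n + 1) j⟩⟩
  let u : ℕ → (V (n + 1) j → unitInterval) := fun m v =>
    ⟨w 0 (e m ((𝔉.sd (n + 1) (dm m)).f j (v.1, Classical.arbitrary (𝔉.Φ (dm m j))))),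
      hw01 _ _⟩
  obtain ⟨us, ψ, hψ, hus⟩ := CompactSpace.tendsto_subseq u
  obtain ⟨τ, hτ, hτu⟩ := (Ioo_infinite (zero_lt_one' ℝ)).exists_notMem_finite
    (Set.finite_range fun v : V (n + 1) j => (us v : ℝ))
  obtain ⟨v0, hv0⟩ := Finite.exists_min fun v : V (n + 1) j => |(us v : ℝ) - τ|
  have hδ : 0 < |(us v0 : ℝ) - τ| := by
    rw [abs_pos, sub_ne_zero]
    intro h
    exact hτu ⟨v0, h⟩
  obtain ⟨η, hη0, hητ, hη1, hηδ⟩ : ∃ η : ℝ, 0 < η ∧ η ≤ τ ∧ η ≤ 1 - τ ∧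
      2 * η ≤ |(us v0 : ℝ) - τ| := by
    refine ⟨min (|(us v0 : ℝ) - τ| / 2) (min τ (1 - τ)), ?_, ?_, ?_, ?_⟩
    · exact lt_min (half_pos hδ) (lt_min hτ.1 (sub_pos.2 hτ.2))
    · exact (min_le_right _ _).trans (min_le_left _ _)
    · exact (min_le_right _ _).trans (min_le_right _ _)
    · have := min_le_left (|(us v0 : ℝ) - τ| / 2) (min τ (1 - τ))
      linarith
  -- the tower
  let l : List (Set Z × Set Z) := List.ofFn fun i : Fin (n + 1) =>
    ({z | w i z ≤ τ - η}, {z | τ + η ≤ w i z})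
  obtain ⟨T, hT, hTl⟩ := tow_exists (lam := lam) n (l := l) (S := univ) (by simp [l]) isClosed_univ
    (by
      intro p hp
      rw [List.mem_ofFn] at hp
      obtain ⟨i, rfl⟩ := hp
      refine ⟨isClosed_le (w i).continuous continuous_const,
        isClosed_le continuous_const (w i).continuous, ?_⟩
      rw [Set.disjoint_left]
      intro z h1 h2
      have h1' : w i z ≤ τ - η := h1
      have h2' : τ + η ≤ w i z := h2
      linarith) hZ
  have hTc : IsClosed T := hT.isClosed isClosed_univ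
  obtain ⟨β, hβ, hTβ⟩ : ∃ β, β < lam ∧ Dle β T := by
    rcases hTl with h | ⟨β, hβ, h⟩
    · exact ⟨0, hl.bot_lt, Dlt.dle (Or.inl h)⟩
    · exact ⟨β, hβ, h⟩
  obtain ⟨m0, hm0⟩ := hb β hβ
  -- choose a good index
  obtain ⟨k, hk0, hk⟩ : ∃ k, m0 ≤ k ∧ dist (u (ψ k)) us < η := by
    have h1 := (Metric.tendsto_atTop.1 hus) η hη0
    obtain ⟨N, hN⟩ := h1
    exact ⟨max m0 N, le_max_left _ _, hN _ (le_max_right _ _)⟩
  set m := ψ k with hm
  have hmm0 : m0 ≤ m := hk0.trans (hψ.id_le k)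
  let D := 𝔉.sd (n + 1) (dm m)
  let g : (Fin (n + 1) → unitInterval) × 𝔉.Φ (dm m j) → Z := fun x => e m (D.f j x)
  have hg : Continuous g := (hec m).comp (D.continuous_f j)
  have hTd := hT.disjoint
  have hTv : ∀ x, g x ∈ T → x.1 ∉ V (n + 1) j := by
    intro x hxT hxV
    have h1 := hTd ({z | w 0 z ≤ τ - η}, {z | τ + η ≤ w 0 z}) (by
      rw [List.mem_ofFn]
      exact ⟨0, rfl⟩)
    have h2 : ¬ w 0 (g x) ≤ τ - η := fun h => (Set.disjoint_left.1 h1.1) hxT h
    have h3 : ¬ τ + η ≤ w 0 (g x) := fun h => (Set.disjoint_left.1 h1.2) hxT h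
    have h4 : dist (u m ⟨x.1, hxV⟩) (us ⟨x.1, hxV⟩) < η :=
      (dist_le_pi_dist (u m) us ⟨x.1, hxV⟩).trans_lt hk
    have h5 : ((u m ⟨x.1, hxV⟩ : unitInterval) : ℝ) = w 0 (g x) := by
      show w 0 (e m (D.f j (x.1, Classical.arbitrary (𝔉.Φ (dm m j))))) = _
      have : D.f j (x.1, Classical.arbitrary (𝔉.Φ (dm m j))) = D.f j x :=
        𝔉.f_vertex (dm m) (w := (x.1, Classical.arbitrary (𝔉.Φ (dm m j)))) (w' := x) hxV rfl
      rw [this]
    rw [Subtype.dist_eq, Real.dist_eq, h5] at h4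
    have h6 := hv0 ⟨x.1, hxV⟩
    have h7 : |w 0 (g x) - τ| < η := by
      rw [abs_lt]; push Not at h2 h3; constructor <;> linarith
    have h8 : |(us ⟨x.1, hxV⟩ : ℝ) - τ| ≤ |w 0 (g x) - (us ⟨x.1, hxV⟩ : ℝ)| +
        |w 0 (g x) - τ| := by
      have := abs_sub_le (us ⟨x.1, hxV⟩ : ℝ) (w 0 (g x)) τ
      rwa [abs_sub_comm (us ⟨x.1, hxV⟩ : ℝ) (w 0 (g x))] at this
    change |(us v0 : ℝ) - τ| ≤ |(us ⟨x.1, hxV⟩ : ℝ) - τ| at h6
    linarith
  have hginj : InjOn g (g ⁻¹' T) := by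
    intro x hx y _ hxy
    refine D.f_injOn j (hei m hxy) ?_
    intro h0
    exact hTv x hx (vf_eq_zero.1 h0)
  have h1 : Dle β (g ⁻¹' T) := hTβ.preimage g hg hTc hginj
  have h2 := (hT.preimage hg).mono_pairs (l' := faces (fun (i : Fin (n + 1))
      (x : (Fin (n + 1) → unitInterval) × 𝔉.Φ (dm m j)) => x.1 i)) (by
    unfold faces
    simp only [l, List.map_ofFn]
    refine forall₂_ofFn fun i => ⟨?_, ?_⟩
    · intro x hx
      show w i (g x) ≤ τ - η
      have := hq0 m i (D.f j x) hx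
      show w i (e m (D.f j x)) ≤ τ - η
      rw [this]
      linarith
    · intro x hx
      show τ + η ≤ w i (g x)
      have := hq1 m i (D.f j x) hx
      show τ + η ≤ w i (e m (D.f j x))
      rw [this]
      linarith)
  rw [preimage_univ] at h2
  exact (hE (dm m j) (n + 1) (g ⁻¹' T) h2).2 β
    (hm0.trans_le (hbm (hmm0.trans (hdmj m)))) h1

/-- Separating functions indexed by pairs of finite sets of members of a base. -/
theorem exists_sep' {Z : Type u} [TopologicalSpace Z] [T2Space Z] [NormalSpace Z] {K : Type v}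
    (B : K → Set Z) (hB : IsTopologicalBasis (range B)) :
    ∃ w : Finset K × Finset K → C(Z, ℝ), (∀ q z, w q z ∈ Icc (0 : ℝ) 1) ∧
      ∀ C L : Set Z, IsCompact C → IsCompact L → Disjoint C L →
        ∃ q, (∀ z ∈ C, w q z = 0) ∧ (∀ z ∈ L, w q z = 1) := by
  classical
  have hcov : ∀ C O : Set Z, IsCompact C → IsOpen O → C ⊆ O →
      ∃ t : Finset K, C ⊆ (⋃ k ∈ t, B k) ∧ closure (⋃ k ∈ t, B k) ⊆ O := by
    intro C O hC hO hCO
    obtain ⟨O1, hO1, hCO1, hcl⟩ := normal_exists_closure_subset hC.isClosed hO hCO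
    obtain ⟨t, ht⟩ := hC.elim_finite_subcover
      (fun k : {k : K // B k ⊆ O1} => B k.1) (fun k => hB.isOpen (mem_range_self _)) (by
        intro x hx
        obtain ⟨U, ⟨k, rfl⟩, hxU, hUO⟩ := hB.exists_subset_of_mem_open (hCO1 hx) hO1
        exact mem_iUnion.2 ⟨⟨k, hUO⟩, hxU⟩)
    refine ⟨t.image Subtype.val, ?_, ?_⟩
    · intro x hx
      obtain ⟨k, hk, hxk⟩ := mem_iUnion₂.1 (ht hx)
      exact mem_iUnion₂.2 ⟨k.1, Finset.mem_image_of_mem _ hk, hxk⟩
    · refine (closure_mono ?_).trans hcl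
      intro x hx
      obtain ⟨k, hk, hxk⟩ := mem_iUnion₂.1 hx
      obtain ⟨k', -, rfl⟩ := Finset.mem_image.1 hk
      exact k'.2 hxk
  have hex : ∀ p : Finset K × Finset K, ∃ f : C(Z, ℝ), (∀ z, f z ∈ Icc (0 : ℝ) 1) ∧
      (Disjoint (closure (⋃ k ∈ p.1, B k)) (closure (⋃ k ∈ p.2, B k)) →
        (∀ z ∈ ⋃ k ∈ p.1, B k, f z = 0) ∧ (∀ z ∈ ⋃ k ∈ p.2, B k, f z = 1)) := by
    intro p
    by_cases hd : Disjoint (closure (⋃ k ∈ p.1, B k)) (closure (⋃ k ∈ p.2, B k))
    · obtain ⟨f, h0, h1, h01⟩ := exists_continuous_zero_one_of_isClosed isClosed_closure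
        isClosed_closure hd
      exact ⟨f, h01, fun _ => ⟨fun z hz => h0 (subset_closure hz),
        fun z hz => h1 (subset_closure hz)⟩⟩
    · exact ⟨0, fun z => by simp, fun h => absurd h hd⟩
  choose f hf01 hf using hex
  refine ⟨f, hf01, ?_⟩
  intro C L hC hL hCL
  obtain ⟨t, hCt, htcl⟩ := hcov C Lᶜ hC hL.isClosed.isOpen_compl (disjoint_left.1 hCL)
  obtain ⟨t', hLt', htcl'⟩ := hcov L (closure (⋃ k ∈ t, B k))ᶜ hL
    isClosed_closure.isOpen_compl (fun z hz hz' => htcl hz' hz)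
  have hd : Disjoint (closure (⋃ k ∈ t, B k)) (closure (⋃ k ∈ t', B k)) := by
    rw [Set.disjoint_left]
    intro z hz hz'
    exact htcl' hz' hz
  obtain ⟨h0, h1⟩ := hf (t, t') hd
  exact ⟨(t, t'), fun z hz => h0 z (hCt hz), fun z hz => h1 z (hLt' hz)⟩

/-- The dominating number: the least cardinality of a set `F` of functions `ℕ → ℕ` such that every
function `ℕ → ℕ` is eventually bounded by some member of `F`. -/
noncomputable def dominatingNumber : Cardinal.{0} :=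
  sInf {κ | ∃ F : Set (ℕ → ℕ), (∀ g : ℕ → ℕ, ∃ f ∈ F, ∀ᶠ n in atTop, g n ≤ f n) ∧
    Cardinal.mk F = κ}

theorem aleph0_lt_dominatingNumber : Cardinal.aleph0 < dominatingNumber := by
  have hne : {κ : Cardinal.{0} | ∃ F : Set (ℕ → ℕ),
      (∀ g : ℕ → ℕ, ∃ f ∈ F, ∀ᶠ n in atTop, g n ≤ f n) ∧ Cardinal.mk F = κ}.Nonempty :=
    ⟨_, univ, fun g => ⟨g, mem_univ _, Eventually.of_forall fun _ => le_rfl⟩, rfl⟩
  obtain ⟨F, hF, hc⟩ := csInf_mem hne
  change Cardinal.mk F = dominatingNumber at hc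
  by_contra hcon
  rw [not_lt, ← hc, Cardinal.le_aleph0_iff_set_countable] at hcon
  have hFne : F.Nonempty := by
    obtain ⟨f, hf, -⟩ := hF 0
    exact ⟨f, hf⟩
  obtain ⟨s, rfl⟩ := hcon.exists_eq_range hFne
  obtain ⟨_, ⟨i, rfl⟩, hi⟩ := hF (fun n => (Finset.range (n + 1)).sup (fun k => s k n) + 1)
  obtain ⟨N, hN⟩ := eventually_atTop.1 hi
  have h1 := hN (max N i) (le_max_left _ _)
  have h2 : s i (max N i) ≤ (Finset.range (max N i + 1)).sup (fun k => s k (max N i)) :=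
    Finset.le_sup (f := fun k => s k (max N i))
      (Finset.mem_range.2 (Nat.lt_succ_of_le (le_max_right _ _)))
  omega

theorem diag' {Q : Type} (hQ : Cardinal.mk Q < dominatingNumber) (q : (ℕ → ℕ) → Q) :
    ∃ q0 j, ∀ m, ∃ d, q d = q0 ∧ m ≤ d j := by
  by_contra hcon
  push Not at hcon
  choose m hm using hcon
  have h1 : dominatingNumber ≤ Cardinal.mk (range m) :=
    csInf_le' ⟨range m, fun g => ⟨m (q g), mem_range_self _,
      Eventually.of_forall fun j => (hm (q g) j g rfl).le⟩, rfl⟩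
  exact absurd (h1.trans Cardinal.mk_range_le) (not_le.2 hQ)

/-- Main theorem in partition form, for families. -/
theorem main_family {lam : Ordinal.{0}} (hl : IsSuccLimit lam) (h1 : lam < ω₁) (n : ℕ)
    {K : Type} [Infinite K] (hK : Cardinal.mk K < dominatingNumber)
    {I : Type} (hI : Cardinal.mk I ≤ Cardinal.mk K)
    (Z : I → Type u) [∀ i, TopologicalSpace (Z i)] [∀ i, T2Space (Z i)] [∀ i, NormalSpace (Z i)]
    (B : ∀ i, K → Set (Z i)) (hB : ∀ i, IsTopologicalBasis (range (B i)))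
    (hZ : ∀ i, Dle (lam + n) (univ : Set (Z i))) :
    ∃ (X : Type) (_ : MetricSpace X), CompactSpace X ∧ Dle (lam + n) (univ : Set X) ∧
      ∀ i, ∀ e : X → Z i, Continuous e → ¬ Function.Injective e := by
  obtain ⟨b, hb, hbm, hbc⟩ := exists_monotone_cofinal hl h1
  obtain ⟨𝔉, hU, hE⟩ := exists_fam (b := b) (fun i => (hb i).trans h1)
  by_contra hcon
  push Not at hcon
  have hd := fun d : ℕ → ℕ => hcon (𝔉.sd (n + 1) d).X inferInstance inferInstance
    (𝔉.upper d hl hb hU n)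
  choose w hw01 hwsep using fun i => exists_sep' (B i) (hB i)
  -- choose separating functions for the faces
  have hface : ∀ d : ℕ → ℕ, ∃ q : I × (Fin (n + 1) → Finset K × Finset K),
      ∃ e : (𝔉.sd (n + 1) d).X → Z q.1, Continuous e ∧ Function.Injective e ∧
        ∀ i : Fin (n + 1),
        (∀ x : (𝔉.sd (n + 1) d).X, (𝔉.sd (n + 1) d).π x i = 0 → w q.1 (q.2 i) (e x) = 0) ∧
        (∀ x : (𝔉.sd (n + 1) d).X, (𝔉.sd (n + 1) d).π x i = 1 → w q.1 (q.2 i) (e x) = 1) := by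
    intro d
    obtain ⟨i0, e, hec, hei⟩ := hd d
    have : ∀ i : Fin (n + 1), ∃ q : Finset K × Finset K,
        (∀ x : (𝔉.sd (n + 1) d).X, (𝔉.sd (n + 1) d).π x i = 0 → w i0 q (e x) = 0) ∧
        (∀ x : (𝔉.sd (n + 1) d).X, (𝔉.sd (n + 1) d).π x i = 1 → w i0 q (e x) = 1) := by
      intro i
      have hc : Continuous fun x : (𝔉.sd (n + 1) d).X => (𝔉.sd (n + 1) d).π x i :=
        (continuous_apply i).comp (𝔉.sd (n + 1) d).continuous_π
      have h0 : IsClosed {x : (𝔉.sd (n + 1) d).X | (𝔉.sd (n + 1) d).π x i = 0} :=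
        isClosed_eq hc continuous_const
      have h1 : IsClosed {x : (𝔉.sd (n + 1) d).X | (𝔉.sd (n + 1) d).π x i = 1} :=
        isClosed_eq hc continuous_const
      obtain ⟨q, hq0, hq1⟩ := hwsep i0 _ _ (h0.isCompact.image hec) (h1.isCompact.image hec) (by
        rw [Set.disjoint_left]
        rintro z ⟨x, hx, rfl⟩ ⟨y, hy, hyx⟩
        have := hei hyx
        subst this
        have h1 : (𝔉.sd (n + 1) d).π y i = 0 := hx
        have h2 : (𝔉.sd (n + 1) d).π y i = 1 := hy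
        rw [h1] at h2
        exact zero_ne_one h2)
      exact ⟨q, fun x hx => hq0 _ ⟨x, hx, rfl⟩, fun x hx => hq1 _ ⟨x, hx, rfl⟩⟩
    choose q hq using this
    exact ⟨(i0, q), e, hec, hei, hq⟩
  choose q hq using hface
  have hcard : Cardinal.mk (I × (Fin (n + 1) → Finset K × Finset K)) < dominatingNumber := by
    refine lt_of_le_of_lt ?_ hK
    have hK0 : Cardinal.aleph0 ≤ Cardinal.mk K := Cardinal.infinite_iff.1 inferInstance
    have e1 : Cardinal.mk (Finset K × Finset K) = Cardinal.mk K := by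
      rw [Cardinal.mk_prod, Cardinal.lift_id, Cardinal.mk_finset_of_infinite,
        Cardinal.mul_eq_self hK0]
    have e2 : Cardinal.mk (Fin (n + 1) → Finset K × Finset K) ≤ Cardinal.mk K := by
      rw [← Cardinal.power_def, e1, Cardinal.mk_fin]
      exact Cardinal.power_nat_le hK0
    calc Cardinal.mk (I × (Fin (n + 1) → Finset K × Finset K))
        = Cardinal.mk I * Cardinal.mk (Fin (n + 1) → Finset K × Finset K) := by
          rw [Cardinal.mk_prod, Cardinal.lift_id, Cardinal.lift_id]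
      _ ≤ Cardinal.mk K * Cardinal.mk K := mul_le_mul' hI e2
      _ = Cardinal.mk K := Cardinal.mul_eq_self hK0
  obtain ⟨q0, j, hdiag⟩ := diag' hcard q
  have hm : ∀ m : ℕ, ∃ d : ℕ → ℕ, m ≤ d j ∧ ∃ e : (𝔉.sd (n + 1) d).X → Z q0.1, Continuous e ∧
      Function.Injective e ∧ ∀ i : Fin (n + 1),
        (∀ x : (𝔉.sd (n + 1) d).X, (𝔉.sd (n + 1) d).π x i = 0 → w q0.1 (q0.2 i) (e x) = 0) ∧
        (∀ x : (𝔉.sd (n + 1) d).X, (𝔉.sd (n + 1) d).π x i = 1 → w q0.1 (q0.2 i) (e x) = 1) := by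
    intro m
    obtain ⟨d, hd1, hd2⟩ := hdiag m
    have h := hq d
    rw [hd1] at h
    exact ⟨d, hd2, h⟩
  choose dm hdmj e hec hei hf using hm
  exact lower_core hl n hbm hbc 𝔉 hE (hZ q0.1) (fun i => w q0.1 (q0.2 i))
    (fun i z => hw01 _ _ _) j dm hdmj e hec hei (fun m i => (hf m i).1) (fun m i => (hf m i).2)

end Pool.Agent.Y739.UT
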