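import Pool.Agent.TH627.UT.Lower

/-!
# A compact Hausdorff space with continuum many points containing all compacta with trInd ≤ α
(helper739)
-/

set_option autoImplicit false

open Set Topology Filter Ordinal Order TopologicalSpace
open Pool.Agent.TH627.UT

universe u v

namespace Pool.Agent.Y739.UT

section sum

variable {J : Type} (X : J → Type) [∀ i, TopologicalSpace (X i)] [∀ i, CompactSpace (X i)]
  [∀ i, T2Space (X i)]

/-- The one-point compactification of the sum of compacta. -/
abbrev Sum1 : Type := OnePoint (Σ i, X i)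

theorem isOpenEmbedding_mk (i : J) : IsOpenEmbedding (fun x : X i => (⟨i, x⟩ : Σ i, X i)) :=
  .of_continuous_injective_isOpenMap continuous_sigmaMk sigma_mk_injective isOpenMap_sigmaMk

instance : WeaklyLocallyCompactSpace (Σ i, X i) where
  exists_compact_mem_nhds := by
    rintro ⟨i, x⟩
    refine ⟨range fun x : X i => (⟨i, x⟩ : Σ i, X i), isCompact_range continuous_sigmaMk, ?_⟩
    exact (isOpenEmbedding_mk X i).isOpen_range.mem_nhds ⟨x, rfl⟩

/-- The inclusion of a summand. -/
def inc (i : J) (x : X i) : Sum1 X := ((⟨i, x⟩ : Σ i, X i) : OnePoint (Σ i, X i))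

theorem isOpenEmbedding_inc (i : J) : IsOpenEmbedding (inc X i) :=
  OnePoint.isOpenEmbedding_coe.comp (isOpenEmbedding_mk X i)

theorem isClopen_range_inc (i : J) : IsClopen (range (inc X i)) :=
  ⟨(isCompact_range (isOpenEmbedding_inc X i).continuous).isClosed,
    (isOpenEmbedding_inc X i).isOpen_range⟩

/-- Finite partial sums. -/
def fin (F : Finset J) : Set (Sum1 X) := ⋃ i ∈ F, range (inc X i)

theorem isClopen_fin (F : Finset J) : IsClopen (fin X F) :=
  F.finite_toSet.isClopen_biUnion fun i _ => isClopen_range_inc X i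

theorem exists_fin {A : Set (Sum1 X)} (hA : IsClosed A) (h : OnePoint.infty ∉ A) :
    ∃ F : Finset J, A ⊆ fin X F := by
  obtain ⟨F, hF⟩ := hA.isCompact.elim_finite_subcover (fun i => range (inc X i))
    (fun i => (isClopen_range_inc X i).isOpen) (by
      intro a ha
      have : a ≠ OnePoint.infty := fun h' => h (h' ▸ ha)
      obtain ⟨⟨i, x⟩, rfl⟩ := OnePoint.ne_infty_iff_exists.1 this
      exact mem_iUnion.2 ⟨i, x, rfl⟩)
  exact ⟨F, hF⟩

theorem dle_fin {α : Ordinal.{0}} (h : ∀ i, Dle α (univ : Set (X i))) (F : Finset J) :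
    Dle α (fin X F) := by
  classical
  induction F using Finset.induction_on with
  | empty =>
    refine Dlt.dle (Or.inl ?_)
    simp [fin]
  | insert i F hi ih =>
    have hr : Dle α (range (inc X i)) := by
      rw [← image_univ]
      exact (dle_image (inc X i) (isOpenEmbedding_inc X i).continuous isClosed_univ
        (isOpenEmbedding_inc X i).injective.injOn).1 (h i)
    refine Dle.union (isClopen_range_inc X i)
      (hr.mono (((isClopen_fin X _).isClosed).inter (isClopen_range_inc X i).isClosed)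
        inter_subset_right)
      (ih.mono (((isClopen_fin X _).isClosed).inter (isClopen_range_inc X i).compl.isClosed) ?_)
    rintro x ⟨hx, hx'⟩
    obtain ⟨k, hk, hxk⟩ := mem_iUnion₂.1 hx
    rcases Finset.mem_insert.1 hk with rfl | hk
    · exact absurd hxk hx'
    · exact mem_iUnion₂.2 ⟨k, hk, hxk⟩

theorem part_sum {α : Ordinal.{0}} (h : ∀ i, Dle α (univ : Set (X i))) {A C : Set (Sum1 X)}
    (hA : IsClosed A) (hC : IsClosed C) (hAC : Disjoint A C) (hA0 : OnePoint.infty ∉ A) :
    ∃ P Q : Set (Sum1 X), IsClosed P ∧ IsClosed Q ∧ P ∪ Q = Set.univ ∧ Disjoint A Q ∧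
      Disjoint C P ∧ Dlt α (P ∩ Q) := by
  obtain ⟨F, hF⟩ := exists_fin X hA hA0
  have hO := isClopen_fin X F
  obtain ⟨P, Q, hP, hQ, hPQ, hAQ, hCP, hd⟩ := dle_iff.1 (dle_fin X h F) A (C ∩ fin X F) hA
    (hC.inter hO.isClosed) hF inter_subset_right (hAC.mono_right inter_subset_left)
  have hPO : P ⊆ fin X F := hPQ ▸ subset_union_left
  refine ⟨P, Q ∪ (fin X F)ᶜ, hP, hQ.union hO.compl.isClosed, ?_, ?_, ?_, ?_⟩
  · rw [← union_assoc, hPQ, union_compl_self]
  · rw [disjoint_union_right]
    exact ⟨hAQ, disjoint_compl_right.mono_left hF⟩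
  · rw [Set.disjoint_left] at hCP ⊢
    intro x hx hxP
    exact hCP ⟨hx, hPO hxP⟩ hxP
  · have e : P ∩ (Q ∪ (fin X F)ᶜ) = P ∩ Q := by
      ext x
      constructor
      · rintro ⟨h1, h2 | h2⟩
        · exact ⟨h1, h2⟩
        · exact absurd (hPO h1) h2
      · rintro ⟨h1, h2⟩
        exact ⟨h1, Or.inl h2⟩
    rwa [e]

theorem dle_sum {α : Ordinal.{0}} (h : ∀ i, Dle α (univ : Set (X i))) :
    Dle α (univ : Set (Sum1 X)) := by
  rw [dle_iff]
  intro A C hA hC _ _ hAC
  by_cases h0 : OnePoint.infty ∈ A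
  · obtain ⟨P, Q, hP, hQ, hPQ, hAQ, hCP, hd⟩ := part_sum X h hC hA hAC.symm
      (fun h1 => (Set.disjoint_left.1 hAC) h0 h1)
    exact ⟨Q, P, hQ, hP, by rw [union_comm, hPQ], hCP, hAQ, by rwa [inter_comm]⟩
  · exact part_sum X h hA hC hAC h0

end sum

/-- The compact subsets of `E` with `trInd ≤ α`. -/
abbrev J (α : Ordinal.{0}) : Type := {K : Set E // IsCompact K ∧ Dle α (univ : Set K)}

instance (α : Ordinal.{0}) (K : J α) : CompactSpace K.1 := isCompact_iff_compactSpace.1 K.2.1

/-- The universal space. -/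
abbrev UU (α : Ordinal.{0}) : Type := Sum1 (fun K : J α => K.1)

theorem dle_UU (α : Ordinal.{0}) : Dle α (univ : Set (UU α)) := dle_sum _ fun K => K.2.2

theorem exists_embedding_UU {α : Ordinal.{0}} {X : Type} [TopologicalSpace X] [CompactSpace X]
    [MetrizableSpace X] (h : Dle α (univ : Set X)) : ∃ e : X → UU α, IsEmbedding e := by
  obtain ⟨κ, hc, hi, -⟩ := exists_κ X one_pos
  have h1 : Dle α (univ : Set (range κ)) := by
    have h2 := (dle_image (rangeFactorization κ) (hc.subtype_mk _) isClosed_univ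
      (injOn_of_injective fun x y hxy => hi (congrArg Subtype.val hxy))).1 h
    rwa [image_univ, rangeFactorization_surjective.range_eq] at h2
  let K : J α := ⟨range κ, isCompact_range hc, h1⟩
  refine ⟨fun x => inc (fun K : J α => K.1) K ⟨κ x, mem_range_self x⟩, ?_⟩
  have hcont : Continuous fun x => inc (fun K : J α => K.1) K ⟨κ x, mem_range_self x⟩ :=
    (isOpenEmbedding_inc (fun K : J α => K.1) K).continuous.comp (hc.subtype_mk _)
  refine (hcont.isClosedEmbedding ?_).isEmbedding
  intro x y hxy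
  have := (isOpenEmbedding_inc (fun K : J α => K.1) K).injective hxy
  exact hi (congrArg Subtype.val this)

open Cardinal in
theorem mk_E : #E ≤ continuum := by
  have h1 : #E ≤ #(ℕ → ℝ) := mk_le_of_injective (f := fun g : E => fun n => g n) (by
    intro g g' h
    ext n
    exact congrFun h n)
  refine h1.trans (le_of_eq ?_)
  rw [← power_def, mk_real, mk_nat, continuum_power_aleph0]

open Cardinal in
theorem mk_J (α : Ordinal.{0}) : #(J α) ≤ continuum := by
  have h1 : #(J α) ≤ #{K : Set E // IsCompact K} :=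
    mk_le_of_injective (f := fun K : J α => (⟨K.1, K.2.1⟩ : {K : Set E // IsCompact K})) (by
      intro K K' h
      have h' := Subtype.mk.inj h
      exact Subtype.ext h')
  refine h1.trans ?_
  have h2 : ∀ K : {K : Set E // IsCompact K}, ∃ s : Option (ℕ → E), K.1 = (match s with
      | none => ∅
      | some s => closure (range s)) := by
    rintro ⟨K, hK⟩
    rcases K.eq_empty_or_nonempty with rfl | hne
    · exact ⟨none, rfl⟩
    · obtain ⟨c, hcK, hcc, hKc⟩ := hK.isSeparable.exists_countable_dense_subset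
      have hcne : c.Nonempty := by
        rw [nonempty_iff_ne_empty]
        rintro rfl
        rw [closure_empty] at hKc
        exact hne.ne_empty (subset_empty_iff.1 hKc)
      obtain ⟨s, rfl⟩ := hcc.exists_eq_range hcne
      exact ⟨some s, subset_antisymm hKc (closure_minimal hcK hK.isClosed)⟩
  choose s hs using h2
  have h3 : #{K : Set E // IsCompact K} ≤ #(Option (ℕ → E)) := mk_le_of_injective (f := s) (by
    intro K K' h
    apply Subtype.ext
    rw [hs K, hs K', h])
  refine h3.trans ?_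
  rw [mk_option, ← power_def, mk_nat]
  calc #E ^ ℵ₀ + 1 ≤ continuum ^ ℵ₀ + 1 := by
        gcongr ?_ + 1
        exact power_le_power_right mk_E
    _ = continuum := by
        rw [continuum_power_aleph0]
        exact add_one_eq aleph0_le_continuum

open Cardinal in
theorem mk_UU (α : Ordinal.{0}) : #(UU α) ≤ continuum := by
  have h1 : #(UU α) = #(Σ K : J α, K.1) + 1 := mk_option
  rw [h1]
  have h2 : #(Σ K : J α, K.1) ≤ #(J α × E) := mk_le_of_injective
    (f := fun x : (Σ K : J α, K.1) => (x.1, (x.2 : E))) (by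
      rintro ⟨K, x⟩ ⟨K', x'⟩ h
      rw [Prod.mk.injEq] at h
      obtain ⟨h1, h2⟩ := h
      change K = K' at h1
      subst h1
      have : x = x' := Subtype.ext h2
      rw [this])
  calc #(Σ K : J α, K.1) + 1 ≤ #(J α × E) + 1 := by gcongr
    _ = #(J α) * #E + 1 := by rw [mk_prod, Cardinal.lift_id, Cardinal.lift_id]
    _ ≤ continuum * continuum + 1 := by
        gcongr
        · exact mk_J α
        · exact mk_E
    _ = continuum := by
        rw [mul_eq_self aleph0_le_continuum]
        exact add_one_eq aleph0_le_continuum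

/-- A compact Hausdorff space with at most `κ` points (`κ` infinite) has a base with at most `κ`
members. -/
theorem exists_base {Y : Type} [t : TopologicalSpace Y] [CompactSpace Y] [T2Space Y]
    {κ : Cardinal.{0}} (hκ : Cardinal.aleph0 ≤ κ) (hY : Cardinal.mk Y ≤ κ) :
    ∃ B : Set (Set Y), IsTopologicalBasis B ∧ Cardinal.mk B ≤ κ := by
  classical
  have h1 : ∀ p : Y × Y, ∃ U : Set Y × Set Y, IsOpen U.1 ∧ IsOpen U.2 ∧
      (p.1 ≠ p.2 → p.1 ∈ U.1 ∧ p.2 ∈ U.2 ∧ Disjoint U.1 U.2) := by
    rintro ⟨x, y⟩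
    by_cases h : x = y
    · exact ⟨(∅, ∅), isOpen_empty, isOpen_empty, fun h' => absurd h h'⟩
    · obtain ⟨U, V, hU, hV, hx, hy, hUV⟩ := t2_separation h
      exact ⟨(U, V), hU, hV, fun _ => ⟨hx, hy, hUV⟩⟩
  choose U hU1 hU2 hU using h1
  let S : Set (Set Y) := range (fun p => (U p).1) ∪ range (fun p => (U p).2)
  have hS : t ≤ generateFrom S := by
    rw [le_generateFrom_iff_subset_isOpen]
    rintro _ (⟨p, rfl⟩ | ⟨p, rfl⟩)
    · exact hU1 p
    · exact hU2 p
  have hT2 : @T2Space Y (generateFrom S) := by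
    refine @T2Space.mk Y (generateFrom S) ?_
    intro x y hxy
    exact ⟨(U (x, y)).1, (U (x, y)).2, isOpen_generateFrom_of_mem (Or.inl ⟨_, rfl⟩),
      isOpen_generateFrom_of_mem (Or.inr ⟨_, rfl⟩), (hU (x, y) hxy).1, (hU (x, y) hxy).2.1,
      (hU (x, y) hxy).2.2⟩
  have hEq : t = generateFrom S := by
    refine le_antisymm hS ?_
    have hc : @Continuous Y Y t (generateFrom S) id := continuous_id_of_le hS
    intro V hV
    have h2 : @IsClosed Y (generateFrom S) (id '' Vᶜ) :=
      (@IsCompact.isClosed Y (generateFrom S) hT2 _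
        (@IsCompact.image Y Y t (generateFrom S) _ _ (@IsClosed.isCompact Y t _ _
          (@IsOpen.isClosed_compl Y t _ hV)) hc))
    rw [image_id] at h2
    exact (@isClosed_compl_iff Y (generateFrom S) V).1 h2
  refine ⟨_, isTopologicalBasis_of_subbasis hEq, ?_⟩
  have hSc : Cardinal.mk S ≤ κ := by
    have e1 : Cardinal.mk (Y × Y) ≤ κ := by
      rw [Cardinal.mk_prod, Cardinal.lift_id]
      exact (mul_le_mul' hY hY).trans (Cardinal.mul_eq_self hκ).le
    calc Cardinal.mk S ≤ Cardinal.mk (range fun p => (U p).1) +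
          Cardinal.mk (range fun p => (U p).2) := Cardinal.mk_union_le _ _
      _ ≤ κ + κ := add_le_add (Cardinal.mk_range_le.trans e1) (Cardinal.mk_range_le.trans e1)
      _ = κ := Cardinal.add_eq_self hκ
  refine Cardinal.mk_image_le.trans ?_
  have h3 : Cardinal.mk {f : Set (Set Y) | f.Finite ∧ f ⊆ S} ≤ Cardinal.mk (Finset S) := by
    refine Cardinal.mk_le_of_injective (f := fun f => f.2.1.toFinset.subtype (· ∈ S)) ?_
    rintro ⟨f, hf, hfS⟩ ⟨g, hg, hgS⟩ h
    apply Subtype.ext
    show f = g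
    ext x
    have h4 := fun hx : x ∈ S => congrArg (fun F : Finset S => (⟨x, hx⟩ : S) ∈ F) h
    simp only [Finset.mem_subtype, Finite.mem_toFinset, eq_iff_iff] at h4
    exact ⟨fun hx => (h4 (hfS hx)).1 hx, fun hx => (h4 (hgS hx)).2 hx⟩
  refine h3.trans ?_
  rcases finite_or_infinite S with hf | hi
  · exact (Cardinal.lt_aleph0_of_finite _).le.trans hκ
  · rw [Cardinal.mk_finset_of_infinite]
    exact hSc

end Pool.Agent.Y739.UT
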